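import Pool.Agent.Y848.NK.Block

set_option autoImplicit false

/-! The asymptotic formula -/

namespace Pool.Agent.Y848.NK

open Finset

lemma TH_add (n h : ℕ) {N N' N'' : ℕ} (h1 : N ≤ N') (h2 : N' ≤ N'') : TH n h N N'' = TH n h N N' + TH n h N' N'' := by
  unfold TH
  rw [← Ioc_union_Ioc_eq_Ioc h1 h2, filter_union, sum_union]
  apply disjoint_filter_filter
  rw [disjoint_left]
  intro x hx hx'
  rw [mem_Ioc] at hx hx'
  omega

lemma TH_sum (n h : ℕ) (Nd : ℕ → ℕ) (hm : ∀ j, Nd j ≤ Nd (j + 1)) (M : ℕ) :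
    TH n h (Nd 0) (Nd M) = ∑ j ∈ range M, TH n h (Nd j) (Nd (j + 1)) := by
  induction M with
  | zero =>
    rw [sum_range_zero]
    unfold TH
    rw [Ioc_self, filter_empty, sum_empty]
  | succ M ih =>
    rw [sum_range_succ, ← ih]
    exact TH_add n h (monotone_nat_of_le_succ hm (Nat.zero_le M)) (hm M)

/-- comparison of the sum with the logarithm -/
lemma log_sums {β : ℝ} (hβ : 0 < β) {M : ℕ} (hM : 1 ≤ M) :
    (∑ j ∈ range M, (β / M) / (1 + (j : ℝ) * (β / M)) ≤ Real.log (1 + β) + β / M) ∧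
    Real.log (1 + β) - β / M ≤ ∑ j ∈ range M, (β / M) / (1 + ((j + 1 : ℕ) : ℝ) * (β / M)) := by
  have hM0 : (0 : ℝ) < M := by exact_mod_cast hM
  obtain ⟨γ, hγ⟩ : ∃ γ : ℝ, γ = β / M := ⟨_, rfl⟩
  rw [← hγ]
  have hγ0 : 0 < γ := by rw [hγ]; positivity
  have hMγ : (M : ℝ) * γ = β := by rw [hγ]; field_simp
  have hx : ∀ j : ℕ, 0 < 1 + (j : ℝ) * γ := fun j => by positivity
  have s1 : ∀ j : ℕ, Real.log (1 + ((j + 1 : ℕ) : ℝ) * γ) - Real.log (1 + (j : ℝ) * γ) ≤ γ / (1 + (j : ℝ) * γ) := by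
    intro j
    rw [← Real.log_div (hx _).ne' (hx _).ne']
    refine (Real.log_le_sub_one_of_pos (div_pos (hx _) (hx _))).trans (le_of_eq ?_)
    rw [div_sub_one (hx j).ne']
    push_cast
    congr 1
    ring
  have s2 : ∀ j : ℕ, γ / (1 + ((j + 1 : ℕ) : ℝ) * γ) ≤ Real.log (1 + ((j + 1 : ℕ) : ℝ) * γ) - Real.log (1 + (j : ℝ) * γ) := by
    intro j
    rw [← Real.log_div (hx _).ne' (hx _).ne']
    refine le_trans (le_of_eq ?_) (Real.one_sub_inv_le_log_of_pos (div_pos (hx _) (hx _)))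
    rw [inv_div, one_sub_div (hx (j + 1)).ne']
    push_cast
    congr 1
    ring
  have t1 : ∑ j ∈ range M, (Real.log (1 + ((j + 1 : ℕ) : ℝ) * γ) - Real.log (1 + (j : ℝ) * γ)) = Real.log (1 + β) := by
    rw [sum_range_sub (fun j : ℕ => Real.log (1 + (j : ℝ) * γ)), hMγ]
    simp
  have t2 : ∑ j ∈ range M, (γ / (1 + ((j + 1 : ℕ) : ℝ) * γ) - γ / (1 + (j : ℝ) * γ)) = γ / (1 + β) - γ := by
    rw [sum_range_sub (fun j : ℕ => γ / (1 + (j : ℝ) * γ)), hMγ]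
    simp
  have t3 : 0 ≤ γ / (1 + β) := by positivity
  rw [sum_sub_distrib] at t2
  have u1 := sum_le_sum (fun j (_ : j ∈ range M) => s1 j)
  have u2 := sum_le_sum (fun j (_ : j ∈ range M) => s2 j)
  rw [t1] at u1 u2
  constructor <;> linarith

/-- a finite family of statements `for τ and N₀ large` -/
lemma unif (M : ℕ) (P : ℕ → ℝ → ℕ → ℕ → Prop) (hP : ∀ j < M, ∃ τ : ℝ, 1 ≤ τ ∧ ∀ d : ℕ, ∃ N₀ : ℕ, P j τ d N₀)
    (hmono : ∀ j τ τ' d N₀ N₀', τ ≤ τ' → N₀ ≤ N₀' → P j τ d N₀ → P j τ' d N₀') :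
    ∃ τ : ℝ, 1 ≤ τ ∧ ∀ d : ℕ, ∃ N₀ : ℕ, ∀ j < M, P j τ d N₀ := by
  induction M with
  | zero => exact ⟨1, le_rfl, fun d => ⟨0, fun j hj => absurd hj (Nat.not_lt_zero j)⟩⟩
  | succ M ih =>
    obtain ⟨τ, hτ, H1⟩ := ih (fun j hj => hP j (by omega))
    obtain ⟨τ', hτ', H2⟩ := hP M (by omega)
    refine ⟨max τ τ', hτ.trans (le_max_left _ _), fun d => ?_⟩
    obtain ⟨N₀, h1⟩ := H1 d
    obtain ⟨N₀', h2⟩ := H2 d
    refine ⟨max N₀ N₀', fun j hj => ?_⟩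
    rcases Nat.lt_succ_iff_lt_or_eq.1 hj with h | h
    · exact hmono j _ _ d _ _ (le_max_left _ _) (le_max_left _ _) (h1 j h)
    · rw [h]
      exact hmono M _ _ d _ _ (le_max_right _ _) (le_max_right _ _) h2

/-- the asymptotic formula -/
theorem asym (hE : ExpSmall) {β lam : ℝ} (hβ0 : 0 < β) (hβ1 : β ≤ 1) (hl0 : 0 < lam) (hl1 : lam ≤ 1)
    {ε : ℝ} (hε : 0 < ε) :
    ∃ τ : ℝ, 1 ≤ τ ∧ ∀ d : ℕ, ∃ k₀ : ℕ, ∀ k : ℕ, k₀ ≤ k → ∀ n : ℕ, τ * k ≤ n → (n : ℝ) ≤ (k : ℝ) ^ d →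
    |TH n ⌊lam * k⌋₊ k ⌊(1 + β) * k⌋₊ - lam * Real.log (1 + β) * k| ≤ ε * k := by
  obtain ⟨M, hM⟩ : ∃ M : ℕ, M = ⌈4 / ε⌉₊ + 1 := ⟨_, rfl⟩
  have hM1 : 1 ≤ M := by omega
  have hM0 : (0 : ℝ) < M := by exact_mod_cast hM1
  have hMε : 4 / ε ≤ M := by
    rw [hM]
    push_cast
    have := Nat.le_ceil (4 / ε)
    linarith
  have hMε' : 1 / (M : ℝ) ≤ ε / 4 := by
    rw [div_le_iff₀ hε] at hMε
    rw [div_le_iff₀ hM0]
    linarith
  obtain ⟨ε₁, hε₁⟩ : ∃ ε₁ : ℝ, ε₁ = min (lam / 4) (ε / (12 * M)) := ⟨_, rfl⟩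
  have hε₁0 : 0 < ε₁ := by rw [hε₁]; exact lt_min (by positivity) (by positivity)
  have hε₁l : ε₁ ≤ lam / 4 := by rw [hε₁]; exact min_le_left _ _
  have hε₁M : M * ε₁ ≤ ε / 12 := by
    have h1 : ε₁ ≤ ε / (12 * M) := by rw [hε₁]; exact min_le_right _ _
    calc M * ε₁ ≤ M * (ε / (12 * M)) := mul_le_mul_of_nonneg_left h1 hM0.le
      _ = ε / 12 := by field_simp
  obtain ⟨γ, hγ⟩ : ∃ γ : ℝ, γ = β / M := ⟨_, rfl⟩
  have hγ0 : 0 < γ := by rw [hγ]; positivity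
  have hMγ : (M : ℝ) * γ = β := by rw [hγ]; field_simp
  have hγ1 : γ ≤ 1 / M := by rw [hγ]; exact div_le_div_of_nonneg_right hβ1 hM0.le
  have hx1 : ∀ j : ℕ, 1 ≤ 1 + (j : ℝ) * γ := fun j => by
    have : 0 ≤ (j : ℝ) * γ := by positivity
    linarith
  have hx2 : ∀ j : ℕ, j ≤ M → 1 + (j : ℝ) * γ ≤ 2 := fun j hj => by
    have h1 : (j : ℝ) * γ ≤ M * γ := mul_le_mul_of_nonneg_right (by exact_mod_cast hj) hγ0.le
    linarith
  -- the heights
  set cj : ℕ → ℝ := fun j => lam / (1 + (j : ℝ) * γ) with hcj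
  have hcj0 : ∀ j, 0 ≤ cj j := fun j => div_nonneg hl0.le (by linarith [hx1 j])
  have hcj1 : ∀ j, cj j ≤ 1 := fun j => by
    simp only [hcj]
    rw [div_le_one (by linarith [hx1 j])]
    linarith [hx1 j]
  have hcjl : ∀ j, j ≤ M → lam / 2 ≤ cj j := fun j hj => by
    simp only [hcj]
    exact div_le_div_of_nonneg_left hl0.le (by linarith [hx1 j]) (hx2 j hj)
  obtain ⟨τ, hτ, HU⟩ := unif M (fun j τ d N₀ => ∀ N : ℕ, N₀ ≤ N → ∀ N' : ℕ, N ≤ N' → N' ≤ 2 * N → ∀ n h : ℕ, h ≤ N → h < n →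
      τ * N ≤ n → (n : ℝ) ≤ (N : ℝ) ^ d →
      ((∀ p ∈ Ioc N N', (h : ℝ) / p ≤ cj j) → TH n h N N' ≤ cj j * ((N' : ℝ) - N) + ε₁ * N) ∧
      ((∀ p ∈ Ioc N N', cj (j + 1) - ε₁ ≤ (h : ℝ) / p) → (cj (j + 1) - ε₁) * ((N' : ℝ) - N) - ε₁ * N ≤ TH n h N N')) (by
    intro j hj
    obtain ⟨τ₁, hτ₁, H1⟩ := block hE (cj j) ε₁ (hcj0 j) (hcj1 j) hε₁0
    obtain ⟨τ₂, hτ₂, H2⟩ := block hE (cj (j + 1) - ε₁) ε₁ (by linarith [hcjl (j + 1) (by omega)]) (by linarith [hcj1 (j + 1)]) hε₁0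
    refine ⟨max τ₁ τ₂, hτ₁.trans (le_max_left _ _), fun d => ?_⟩
    obtain ⟨N₁, h1⟩ := H1 d
    obtain ⟨N₂, h2⟩ := H2 d
    refine ⟨max N₁ N₂, ?_⟩
    intro N hN N' hNN hN' n h hhN hhn hn hn'
    have hN0 : (0 : ℝ) ≤ N := Nat.cast_nonneg N
    exact ⟨(h1 N ((le_max_left _ _).trans hN) N' hNN hN' n h hhN hhn ((mul_le_mul_of_nonneg_right (le_max_left _ _) hN0).trans hn) hn').1,
      (h2 N ((le_max_right _ _).trans hN) N' hNN hN' n h hhN hhn ((mul_le_mul_of_nonneg_right (le_max_right _ _) hN0).trans hn) hn').2⟩) (by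
    intro j τ τ' d N₀ N₀' h1 h2 h3 N hN N' hNN hN' n h hhN hhn hn hn'
    exact h3 N (h2.trans hN) N' hNN hN' n h hhN hhn ((mul_le_mul_of_nonneg_right h1 (Nat.cast_nonneg N)).trans hn) hn')
  refine ⟨2 * τ + 1, by linarith, fun d => ?_⟩
  obtain ⟨N₀, hU⟩ := HU d
  refine ⟨N₀ + ⌈1 / ε₁⌉₊ + ⌈12 * M / ε⌉₊ + 1, fun k hk n hn hn' => ?_⟩
  have hk1 : 1 ≤ k := by omega
  have hk0 : (0 : ℝ) < k := by exact_mod_cast hk1
  have hkε₁ : 1 / ε₁ ≤ k := (Nat.le_ceil _).trans (by exact_mod_cast (by omega : ⌈1 / ε₁⌉₊ ≤ k))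
  have hkM : 12 * M / ε ≤ k := (Nat.le_ceil _).trans (by exact_mod_cast (by omega : ⌈12 * M / ε⌉₊ ≤ k))
  have hkinv : 1 / (k : ℝ) ≤ ε₁ := by
    rw [div_le_iff₀ hε₁0] at hkε₁
    rw [div_le_iff₀ hk0]; linarith
  have hMk : (M : ℝ) ≤ ε / 12 * k := by
    rw [div_le_iff₀ hε] at hkM
    linarith
  -- the nodes
  set Nd : ℕ → ℕ := fun j => ⌊(k : ℝ) * (1 + (j : ℝ) * γ)⌋₊ with hNd
  have hNd0 : Nd 0 = k := by simp [hNd]
  have hNdM : Nd M = ⌊(1 + β) * k⌋₊ := by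
    simp only [hNd]
    rw [hMγ, mul_comm]
  have hmono : ∀ j, Nd j ≤ Nd (j + 1) := fun j => by
    apply Nat.floor_le_floor
    apply mul_le_mul_of_nonneg_left _ hk0.le
    push_cast
    linarith
  have hNdk : ∀ j, k ≤ Nd j := fun j => by
    have := monotone_nat_of_le_succ hmono (Nat.zero_le j)
    rwa [hNd0] at this
  have hNdr : ∀ j : ℕ, (Nd j : ℝ) ≤ k * (1 + (j : ℝ) * γ) := fun j =>
    Nat.floor_le (mul_nonneg hk0.le (by linarith [hx1 j]))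
  have hNdr' : ∀ j : ℕ, (k : ℝ) * (1 + (j : ℝ) * γ) < Nd j + 1 := fun j => Nat.lt_floor_add_one _
  have hNd2 : ∀ j, j ≤ M → (Nd j : ℝ) ≤ 2 * k := fun j hj => by
    have := mul_le_mul_of_nonneg_left (hx2 j hj) hk0.le
    linarith [hNdr j]
  have hNd2' : ∀ j, j ≤ M → Nd j ≤ 2 * k := fun j hj => by
    have := hNd2 j hj
    exact_mod_cast this
  obtain ⟨h, hh⟩ : ∃ h : ℕ, h = ⌊lam * k⌋₊ := ⟨_, rfl⟩
  have hhr : (h : ℝ) ≤ lam * k := by rw [hh]; exact Nat.floor_le (by positivity)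
  have hhr' : lam * k < h + 1 := by rw [hh]; exact Nat.lt_floor_add_one _
  have hhk : h ≤ k := by
    have : (h : ℝ) ≤ k := by nlinarith
    exact_mod_cast this
  have hkn : (k : ℝ) < n := by nlinarith
  have hhn : h < n := lt_of_le_of_lt hhk (by exact_mod_cast hkn)
  rw [← hh, ← hNdM]
  conv_lhs => rw [← hNd0]
  rw [TH_sum n h Nd hmono M, hNd0]
  have hcore : ∀ j ∈ range M,
      TH n h (Nd j) (Nd (j + 1)) ≤ cj j * γ * k + (1 + 2 * ε₁ * k) ∧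
      cj (j + 1) * γ * k - (1 + 4 * ε₁ * k) ≤ TH n h (Nd j) (Nd (j + 1)) := by
    intro j hj
    rw [mem_range] at hj
    have hNj0 : (0 : ℝ) ≤ Nd j := Nat.cast_nonneg _
    obtain ⟨u1, u2⟩ := hU j hj (Nd j) (le_trans (by omega) (hNdk j)) (Nd (j + 1)) (hmono j)
      ((hNd2' (j + 1) (by omega)).trans (Nat.mul_le_mul_left 2 (hNdk j))) n h (hhk.trans (hNdk j)) hhn (by
        have := hNd2 j (by omega)
        nlinarith) (hn'.trans (pow_le_pow_left₀ hk0.le (by exact_mod_cast hNdk j) d))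
    have v1 : (Nd (j + 1) : ℝ) - Nd j ≤ γ * k + 1 := by
      have a1 := hNdr (j + 1)
      have a2 := hNdr' j
      push_cast at a1
      nlinarith
    have v2 : γ * k - 1 ≤ (Nd (j + 1) : ℝ) - Nd j := by
      have a1 := hNdr j
      have a2 := hNdr' (j + 1)
      push_cast at a2
      nlinarith
    have v3 : 0 ≤ (Nd (j + 1) : ℝ) - Nd j := by
      have : (Nd j : ℝ) ≤ Nd (j + 1) := by exact_mod_cast hmono j
      linarith
    have hN2 := hNd2 j (by omega)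
    have hxj := hx1 j
    have hxj1 := hx1 (j + 1)
    constructor
    · have w1 := u1 (by
        intro p hp
        have hp' := mem_Ioc.1 hp
        have hp1 : (k : ℝ) * (1 + (j : ℝ) * γ) < p := (hNdr' j).trans_le (by exact_mod_cast hp'.1)
        have hp0 : (0 : ℝ) < p := lt_trans (mul_pos hk0 (by linarith)) hp1
        simp only [hcj]
        rw [div_le_div_iff₀ hp0 (by linarith)]
        calc (h : ℝ) * (1 + (j : ℝ) * γ) ≤ lam * k * (1 + (j : ℝ) * γ) := mul_le_mul_of_nonneg_right hhr (by linarith)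
          _ = lam * (k * (1 + (j : ℝ) * γ)) := by ring
          _ ≤ lam * p := mul_le_mul_of_nonneg_left hp1.le hl0.le)
      have w2 : cj j * ((Nd (j + 1) : ℝ) - Nd j) ≤ cj j * (γ * k) + 1 := by
        have := mul_le_mul_of_nonneg_left v1 (hcj0 j)
        linarith [hcj1 j]
      have w3 : ε₁ * (Nd j : ℝ) ≤ ε₁ * (2 * k) := mul_le_mul_of_nonneg_left hN2 hε₁0.le
      linarith
    · have w1 := u2 (by
        intro p hp
        have hp' := mem_Ioc.1 hp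
        have hp1 : (p : ℝ) ≤ (k : ℝ) * (1 + ((j + 1 : ℕ) : ℝ) * γ) := by
          have : (p : ℝ) ≤ Nd (j + 1) := by exact_mod_cast hp'.2
          exact this.trans (hNdr (j + 1))
        have hp2 : (k : ℝ) < p := by
          have : k < p := lt_of_le_of_lt (hNdk j) hp'.1
          exact_mod_cast this
        have hp0 : (0 : ℝ) < p := hk0.trans hp2
        have b1 : cj (j + 1) - 1 / k ≤ (h : ℝ) / p := by
          simp only [hcj]
          have b2 : lam / (1 + ((j + 1 : ℕ) : ℝ) * γ) ≤ lam * k / p := by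
            rw [div_le_div_iff₀ (by linarith) hp0]
            calc lam * p ≤ lam * ((k : ℝ) * (1 + ((j + 1 : ℕ) : ℝ) * γ)) := mul_le_mul_of_nonneg_left hp1 hl0.le
              _ = lam * k * (1 + ((j + 1 : ℕ) : ℝ) * γ) := by ring
          have b3 : lam * k / p ≤ (h + 1) / p := div_le_div_of_nonneg_right hhr'.le hp0.le
          have b4 : ((h : ℝ) + 1) / p = h / p + 1 / p := by ring
          have b5 : 1 / (p : ℝ) ≤ 1 / k := div_le_div_of_nonneg_left zero_le_one hk0 hp2.le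
          linarith
        linarith)
      have w2 : cj (j + 1) * (γ * k) - 1 ≤ cj (j + 1) * ((Nd (j + 1) : ℝ) - Nd j) := by
        have := mul_le_mul_of_nonneg_left v2 (hcj0 (j + 1))
        linarith [hcj1 (j + 1)]
      have w3 : ε₁ * (Nd j : ℝ) ≤ ε₁ * (2 * k) := mul_le_mul_of_nonneg_left hN2 hε₁0.le
      have w4 : ε₁ * ((Nd (j + 1) : ℝ) - Nd j) ≤ ε₁ * (2 * k) := by
        apply mul_le_mul_of_nonneg_left _ hε₁0.le
        have := hNd2 (j + 1) (by omega)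
        linarith
      linarith
  obtain ⟨L1, L2⟩ := log_sums hβ0 hM1
  rw [← hγ] at L1 L2
  have S1 := sum_le_sum (fun j hj => (hcore j hj).1)
  have S2 := sum_le_sum (fun j hj => (hcore j hj).2)
  rw [sum_add_distrib, sum_const, card_range, nsmul_eq_mul] at S1
  rw [sum_sub_distrib, sum_const, card_range, nsmul_eq_mul] at S2
  have R1 : ∑ j ∈ range M, cj j * γ * k = lam * k * ∑ j ∈ range M, γ / (1 + (j : ℝ) * γ) := by
    rw [mul_sum]
    apply sum_congr rfl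
    intro j _
    simp only [hcj]
    ring
  have R2 : ∑ j ∈ range M, cj (j + 1) * γ * k = lam * k * ∑ j ∈ range M, γ / (1 + ((j + 1 : ℕ) : ℝ) * γ) := by
    rw [mul_sum]
    apply sum_congr rfl
    intro j _
    simp only [hcj]
    ring
  rw [R1] at S1
  rw [R2] at S2
  have hlk : 0 ≤ lam * k := by positivity
  have P1 := mul_le_mul_of_nonneg_left L1 hlk
  have P2 := mul_le_mul_of_nonneg_left L2 hlk
  have hγε : γ ≤ ε / 4 := hγ1.trans hMε'
  have P3 : lam * k * γ ≤ ε / 4 * k := by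
    calc lam * k * γ ≤ 1 * k * (ε / 4) := by gcongr
      _ = ε / 4 * k := by ring
  have P4 : (M : ℝ) * (1 + 2 * ε₁ * k) ≤ ε / 12 * k + ε / 6 * k := by
    have : (M : ℝ) * (1 + 2 * ε₁ * k) = M + 2 * (M * ε₁) * k := by ring
    rw [this]
    have := mul_le_mul_of_nonneg_right hε₁M hk0.le
    linarith
  have P5 : (M : ℝ) * (1 + 4 * ε₁ * k) ≤ ε / 12 * k + ε / 3 * k := by
    have : (M : ℝ) * (1 + 4 * ε₁ * k) = M + 4 * (M * ε₁) * k := by ring
    rw [this]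
    have := mul_le_mul_of_nonneg_right hε₁M hk0.le
    linarith
  rw [abs_le]
  have hεk : 0 ≤ ε * k := by positivity
  constructor
  · have : lam * k * (Real.log (1 + β) - γ) = lam * Real.log (1 + β) * k - lam * k * γ := by ring
    linarith
  · have : lam * k * (Real.log (1 + β) + γ) = lam * Real.log (1 + β) * k + lam * k * γ := by ring
    linarith

end Pool.Agent.Y848.NK
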