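import Pool.Agent.Y848.NK.Trap

set_option autoImplicit false

/-! One block of primes -/

namespace Pool.Agent.Y848.NK

open Finset MeasureTheory
open Pool.Agent.H895R3.NK (theta_sub psi_sub)

/-- logarithmic weight of the primes of `(N, N']` which divide `(n - 1) ⋯ (n - h)` -/
noncomputable def TH (n h N N' : ℕ) : ℝ :=
  ∑ p ∈ (Ioc N N').filter (fun p => p.Prime ∧ p ∣ ∏ i ∈ Icc 1 h, (n - i)), Real.log p

lemma hit_iff {n h p : ℕ} (hp : p.Prime) (hhp : h < p) (hhn : h < n) :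
    p ∣ ∏ i ∈ Icc 1 h, (n - i) ↔ 0 < Int.fract ((n : ℝ) / p) ∧ Int.fract ((n : ℝ) / p) ≤ h / p := by
  have hp0 : (0 : ℝ) < p := by exact_mod_cast hp.pos
  rw [Int.fract_div_natCast_eq_div_natCast_mod, div_le_div_iff_of_pos_right hp0]
  constructor
  · intro hd
    rw [Prime.dvd_finsetProd_iff hp.prime] at hd
    obtain ⟨i, hi, hd⟩ := hd
    rw [mem_Icc] at hi
    have h1 : n % p = i := by
      obtain ⟨m, hm⟩ := hd
      have : n = i + p * m := by omega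
      rw [this, Nat.add_mul_mod_self_left, Nat.mod_eq_of_lt (by omega)]
    rw [h1]
    exact ⟨div_pos (by exact_mod_cast hi.1) hp0, by exact_mod_cast hi.2⟩
  · rintro ⟨h1, h2⟩
    have h3 : n % p ≤ h := by exact_mod_cast h2
    have h4 : 0 < n % p := by
      by_contra hc
      have : n % p = 0 := by omega
      rw [this] at h1
      simp at h1
    have : p ∣ n - n % p := Nat.dvd_sub_mod n
    exact this.trans (dvd_prod_of_mem (fun i => n - i) (by rw [mem_Icc]; omega))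

lemma WS_re (m r δ : ℝ) (N N' : ℕ) (ξ : ℝ) : (WS (trg m r δ) N N' ξ).re =
    ∑ n ∈ Ioc N N', ArithmeticFunction.vonMangoldt n * trv m r δ ((ξ / (n : ℝ) : ℝ) : AddCircle (1 : ℝ)) := by
  unfold WS
  rw [Complex.re_sum]
  apply sum_congr rfl
  intro n _
  rw [Complex.re_ofReal_mul]
  rfl

lemma TH_le {n h N N' : ℕ} (hN : h ≤ N) (hhn : h < n) {c δ : ℝ} (hδ : 0 < δ)
    (hc : ∀ p ∈ Ioc N N', (h : ℝ) / p ≤ c) : TH n h N N' ≤ (WS (trg (c / 2) (c / 2) δ) N N' n).re := by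
  rw [WS_re]
  unfold TH
  rw [sum_filter]
  apply sum_le_sum
  intro p hp
  have hp' := mem_Ioc.1 hp
  have h0 := mul_nonneg (ArithmeticFunction.vonMangoldt_nonneg (n := p))
    (trv_nonneg (c / 2) (c / 2) δ (((n : ℝ) / (p : ℝ) : ℝ) : AddCircle (1 : ℝ)))
  split_ifs with hh
  · have h1 := (hit_iff hh.1 (by omega) hhn).1 hh.2
    rw [upper_pt hδ (h1.2.trans (hc p hp)), mul_one, ArithmeticFunction.vonMangoldt_apply_prime hh.1]
  · exact h0

lemma TH_ge {n h N N' : ℕ} (hN : h ≤ N) (hNN : N ≤ N') (hhn : h < n) {c δ : ℝ} (hδ : 0 < δ) (hc1 : c ≤ 1)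
    (hc : ∀ p ∈ Ioc N N', c ≤ (h : ℝ) / p) :
    (WS (trg (c / 2) (c / 2 - 2 * δ) δ) N N' n).re ≤ TH n h N N' + (Chebyshev.psi (N' : ℝ) - Chebyshev.theta (N' : ℝ)) := by
  rw [WS_re]
  have h1 : ∑ m ∈ Ioc N N', ArithmeticFunction.vonMangoldt m * trv (c / 2) (c / 2 - 2 * δ) δ (((n : ℝ) / (m : ℝ) : ℝ) : AddCircle (1 : ℝ)) ≤
      TH n h N N' + ((∑ m ∈ Ioc N N', ArithmeticFunction.vonMangoldt m) - ∑ p ∈ (Ioc N N').filter Nat.Prime, Real.log p) := by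
    unfold TH
    rw [sum_filter, sum_filter, ← sum_sub_distrib, ← sum_add_distrib]
    apply sum_le_sum
    intro p hp
    have hp' := mem_Ioc.1 hp
    have hL := ArithmeticFunction.vonMangoldt_nonneg (n := p)
    have ht0 := trv_nonneg (c / 2) (c / 2 - 2 * δ) δ (((n : ℝ) / (p : ℝ) : ℝ) : AddCircle (1 : ℝ))
    have ht1 := trv_le_one (c / 2) (c / 2 - 2 * δ) δ (((n : ℝ) / (p : ℝ) : ℝ) : AddCircle (1 : ℝ))
    by_cases hpp : p.Prime
    · rw [if_pos hpp, ArithmeticFunction.vonMangoldt_apply_prime hpp]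
      have hlog : 0 ≤ Real.log p := Real.log_natCast_nonneg p
      split_ifs with hh
      · nlinarith
      · have h2 : trv (c / 2) (c / 2 - 2 * δ) δ (((n : ℝ) / (p : ℝ) : ℝ) : AddCircle (1 : ℝ)) = 0 := by
          by_contra hne
          have h3 := lower_pt hδ hc1 (lt_of_le_of_ne ht0 (Ne.symm hne))
          exact hh ⟨hpp, (hit_iff hpp (by omega) hhn).2 ⟨h3.1, h3.2.le.trans (hc p hp)⟩⟩
        rw [h2]
        linarith
    · rw [if_neg hpp, if_neg (fun hh => hpp hh.1)]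
      nlinarith
  refine h1.trans ?_
  rw [← psi_sub N N' hNN, ← theta_sub N N' hNN]
  have := Chebyshev.theta_le_psi (N : ℝ)
  linarith

/-- the prime number theorem for `ψ` -/
lemma psi_pnt (ε : ℝ) (hε : 0 < ε) : ∃ N₀ : ℕ, ∀ N : ℕ, N₀ ≤ N → |Chebyshev.psi (N : ℝ) - N| ≤ ε * N ∧
    Chebyshev.psi (N : ℝ) - Chebyshev.theta (N : ℝ) ≤ ε * N := by
  obtain ⟨C, hC, hth⟩ := Pool.Agent.H442R2.EHI.PntErrAux.thetaU 1
  obtain ⟨C₂, hC₂⟩ := Chebyshev.psi_sub_theta_le_mul_sqrt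
  obtain ⟨N₁, hN₁⟩ := Pool.Agent.H895R3.NK.ev_log' 1 one_pos 1 (2 * C / ε)
  refine ⟨N₁ + ⌈(2 * |C₂| / ε) ^ 2⌉₊ + 2, fun N hN => ?_⟩
  obtain ⟨-, hB, hl1, -, -⟩ := hN₁ N (by omega)
  have hN0 : (0 : ℝ) < N := by exact_mod_cast (by omega : 0 < N)
  have h1 := hth N (by omega)
  rw [pow_one] at h1
  have h2 : C * (N / Real.log N) ≤ ε / 2 * N := by
    rw [div_le_iff₀ hε] at hB
    rw [← mul_div_assoc, div_le_iff₀ (by linarith)]
    nlinarith
  have h3 : |C₂| * Real.sqrt N ≤ ε / 2 * N := by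
    have h4 : (2 * |C₂| / ε) ≤ Real.sqrt N := by
      apply Real.le_sqrt_of_sq_le
      exact (Nat.le_ceil _).trans (by exact_mod_cast (by omega : ⌈(2 * |C₂| / ε) ^ 2⌉₊ ≤ N))
    rw [div_le_iff₀ hε] at h4
    have h5 : Real.sqrt N * Real.sqrt N = N := Real.mul_self_sqrt hN0.le
    have h6 := Real.sqrt_nonneg (N : ℝ)
    nlinarith
  have h7 : C₂ * Real.sqrt N ≤ |C₂| * Real.sqrt N := mul_le_mul_of_nonneg_right (le_abs_self _) (Real.sqrt_nonneg _)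
  have h8 := hC₂ (N : ℝ)
  have h9 := Chebyshev.theta_le_psi (N : ℝ)
  have h10 := abs_le.1 h1
  constructor
  · rw [abs_le]
    constructor <;> linarith [h10.1, h10.2]
  · have : 0 ≤ ε / 2 * N := by positivity
    linarith

/-- one block -/
theorem block (hE : ExpSmall) (c ε : ℝ) (hc0 : 0 ≤ c) (hc1 : c ≤ 1) (hε : 0 < ε) :
    ∃ τ : ℝ, 1 ≤ τ ∧ ∀ d : ℕ, ∃ N₀ : ℕ, ∀ N : ℕ, N₀ ≤ N → ∀ N' : ℕ, N ≤ N' → N' ≤ 2 * N → ∀ n h : ℕ, h ≤ N → h < n →
    τ * N ≤ n → (n : ℝ) ≤ (N : ℝ) ^ d →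
    ((∀ p ∈ Ioc N N', (h : ℝ) / p ≤ c) → TH n h N N' ≤ c * ((N' : ℝ) - N) + ε * N) ∧
    ((∀ p ∈ Ioc N N', c ≤ (h : ℝ) / p) → c * ((N' : ℝ) - N) - ε * N ≤ TH n h N N') := by
  obtain ⟨δ, hδ⟩ : ∃ δ : ℝ, δ = ε / 100 := ⟨_, rfl⟩
  have hδ0 : 0 < δ := by rw [hδ]; positivity
  obtain ⟨τ₁, hτ₁, H1⟩ := QQ_all hE (trg (c / 2) (c / 2) δ) δ hδ0
  obtain ⟨τ₂, hτ₂, H2⟩ := QQ_all hE (trg (c / 2) (c / 2 - 2 * δ) δ) δ hδ0
  obtain ⟨N₃, h3⟩ := psi_pnt δ hδ0
  refine ⟨max τ₁ τ₂, hτ₁.trans (le_max_left _ _), fun d => ?_⟩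
  obtain ⟨N₁, h1⟩ := H1 d
  obtain ⟨N₂, h2⟩ := H2 d
  refine ⟨N₁ + N₂ + N₃, ?_⟩
  intro N hN N' hNN hN' n h hhN hhn hn hn'
  have hN0 : (0 : ℝ) ≤ N := Nat.cast_nonneg N
  have k1 := h1 N (by omega) N' hNN hN' n ((mul_le_mul_of_nonneg_right (le_max_left _ _) hN0).trans hn) hn'
  have k2 := h2 N (by omega) N' hNN hN' n ((mul_le_mul_of_nonneg_right (le_max_right _ _) hN0).trans hn) hn'
  obtain ⟨k3, -⟩ := h3 N (by omega)
  obtain ⟨k4, k5⟩ := h3 N' (by omega)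
  have hN'r : (N' : ℝ) ≤ 2 * N := by exact_mod_cast hN'
  have hNNr : (N : ℝ) ≤ N' := by exact_mod_cast hNN
  set V := ∑ m ∈ Ioc N N', ArithmeticFunction.vonMangoldt m with hV
  have hVe : V = Chebyshev.psi (N' : ℝ) - Chebyshev.psi (N : ℝ) := (psi_sub N N' hNN).symm
  have hV12 : V ≤ 12 * N := sum_vM_le N N' hNN hN'
  have hV0 : 0 ≤ V := sum_vM_nonneg N N'
  have a3 := abs_le.1 k3
  have a4 := abs_le.1 k4
  have hVd1 : V ≤ ((N' : ℝ) - N) + 3 * δ * N := by nlinarith [a3.1, a4.2]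
  have hVd2 : ((N' : ℝ) - N) - 3 * δ * N ≤ V := by nlinarith [a3.2, a4.1]
  constructor
  · intro hc
    have e1 := TH_le hhN hhn hδ0 hc
    have e2 := (Complex.abs_re_le_norm _).trans k1
    rw [MV_trg, ← Complex.ofReal_mul, Complex.sub_re, Complex.ofReal_re] at e2
    have e3 := (abs_le.1 e2).2
    have e4 := trv_int_le (m := c / 2) (r := c / 2) hδ0 (by linarith)
    have e5 := mul_le_mul_of_nonneg_right e4 hV0
    have e6 : TH n h N N' ≤ (c + 2 * δ) * V + δ * N := by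
      have : (2 * (c / 2) + 2 * δ) * V = (c + 2 * δ) * V := by ring
      linarith
    have e7 : c * V ≤ c * ((N' : ℝ) - N) + 3 * δ * N := by
      have := mul_le_mul_of_nonneg_left hVd1 hc0
      have h8 : c * (3 * δ * N) ≤ 1 * (3 * δ * N) := mul_le_mul_of_nonneg_right hc1 (by positivity)
      linarith
    have e8 : 2 * δ * V ≤ 24 * δ * N := by nlinarith
    have e9 : ε * N = 100 * δ * N := by rw [hδ]; ring
    nlinarith
  · intro hc
    have e1 := TH_ge hhN hNN hhn hδ0 hc1 hc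
    have e2 := (Complex.abs_re_le_norm _).trans k2
    rw [MV_trg, ← Complex.ofReal_mul, Complex.sub_re, Complex.ofReal_re] at e2
    have e3 := (abs_le.1 e2).1
    have e4 := trv_int_ge (m := c / 2) (r := c / 2 - 2 * δ) hδ0 (by linarith)
    have e5 := mul_le_mul_of_nonneg_right e4 hV0
    have e7 : c * ((N' : ℝ) - N) - 3 * δ * N ≤ c * V := by
      have := mul_le_mul_of_nonneg_left hVd2 hc0
      have h8 : c * (3 * δ * N) ≤ 1 * (3 * δ * N) := mul_le_mul_of_nonneg_right hc1 (by positivity)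
      linarith
    have e8 : 4 * δ * V ≤ 48 * δ * N := by nlinarith
    have e9 : ε * N = 100 * δ * N := by rw [hδ]; ring
    have e10 : δ * N' ≤ 2 * δ * N := by nlinarith
    have e11 : 2 * (c / 2 - 2 * δ) * V = c * V - 4 * δ * V := by ring
    have e12 : 0 ≤ δ * N := by positivity
    nlinarith

end Pool.Agent.Y848.NK
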