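import Pool.Agent.Y848.NK.Weyl

set_option autoImplicit false

/-! The exponential sum over primes in the range `τ N ≤ ξ` -/

namespace Pool.Agent.Y848.NK

open Finset
open Pool.Agent.H469R2.NK (e norm_e e_add conj_e e_zero)
open Pool.Agent.H895R3.NK (psi_sub ev_log' prime_exp_small exp_Ioc)

lemma e_sub_le (x y : ℝ) : ‖e x - e y‖ ≤ 2 * Real.pi * |x - y| := by
  have h1 : e x - e y = e y * (Complex.exp (Complex.I * ((2 * Real.pi * (x - y) : ℝ) : ℂ)) - 1) := by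
    unfold e
    rw [mul_sub, mul_one, ← Complex.exp_add]
    congr 2
    push_cast
    ring
  rw [h1, norm_mul, norm_e, one_mul]
  refine (Real.norm_exp_I_mul_ofReal_sub_one_le).trans ?_
  rw [Real.norm_eq_abs, abs_mul, abs_of_pos (by positivity : (0 : ℝ) < 2 * Real.pi)]

/-- summation by parts -/
lemma abel (E : ℕ → ℝ) (f : ℕ → ℂ) {N N' : ℕ} (h : N ≤ N') :
    ∑ n ∈ Ioc N N', (((E n - E (n - 1) : ℝ)) : ℂ) * f n =
      (E N' : ℂ) * f N' - (E N : ℂ) * f N - ∑ n ∈ Ioc N N', (E (n - 1) : ℂ) * (f n - f (n - 1)) := by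
  induction N', h using Nat.le_induction with
  | base => simp
  | succ m hm ih =>
    rw [← Ioc_union_Ioc_eq_Ioc hm (Nat.le_succ m)]
    have hd : Disjoint (Ioc N m) (Ioc m (m + 1)) := by
      rw [disjoint_left]
      intro x hx hx'
      rw [mem_Ioc] at hx hx'
      omega
    rw [sum_union hd, sum_union hd, ih]
    have hI : Ioc m (m + 1) = {m + 1} := by
      ext x
      rw [mem_Ioc, mem_singleton]
      omega
    rw [hI, sum_singleton, sum_singleton, Nat.add_sub_cancel]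
    push_cast
    ring

lemma psi_err (δ : ℝ) (hδ : 0 < δ) : ∃ N₀ : ℕ, ∀ N : ℕ, N₀ ≤ N → ∀ n : ℕ, N ≤ n → n ≤ 2 * N →
    |Chebyshev.psi (n : ℝ) - n| ≤ δ * (N / Real.log N ^ 14) := by
  obtain ⟨C, hC, hth⟩ := Pool.Agent.H442R2.EHI.PntErrAux.thetaU 15
  obtain ⟨C₂, hC₂⟩ := Chebyshev.psi_sub_theta_le_mul_sqrt
  obtain ⟨N₁, hN₁⟩ := ev_log' (1 / 2) (by norm_num) 15 (4 * (C + |C₂|) / δ)
  refine ⟨N₁ + 2, fun N hN n hNn hn => ?_⟩
  obtain ⟨-, hB, hl1, -, hpow⟩ := hN₁ N (by omega)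
  have hN2 : (2 : ℝ) ≤ N := by exact_mod_cast (by omega : 2 ≤ N)
  have hN0 : (0 : ℝ) < N := by linarith
  obtain ⟨l, hl⟩ : ∃ l : ℝ, l = Real.log N := ⟨_, rfl⟩
  rw [← hl] at hB hl1 hpow ⊢
  have hl0 : 0 < l := by linarith
  have hnr : (N : ℝ) ≤ n := by exact_mod_cast hNn
  have hnr2 : (n : ℝ) ≤ 2 * N := by exact_mod_cast hn
  have hln : l ≤ Real.log n := by rw [hl]; exact Real.log_le_log hN0 hnr
  rw [div_le_iff₀ hδ] at hB
  have h1 := hth n (by omega)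
  have h2 : C * ((n : ℝ) / Real.log n ^ 15) ≤ (2 * C / l) * (N / l ^ 14) := by
    calc C * ((n : ℝ) / Real.log n ^ 15) ≤ C * ((2 * N) / l ^ 15) := by gcongr
      _ = (2 * C / l) * (N / l ^ 14) := by field_simp
  have hsq : Real.sqrt N * l ^ 15 ≤ N := by
    rw [← Real.sqrt_eq_rpow] at hpow
    calc Real.sqrt N * l ^ 15 ≤ Real.sqrt N * Real.sqrt N := mul_le_mul_of_nonneg_left hpow (Real.sqrt_nonneg _)
      _ = N := Real.mul_self_sqrt hN0.le
  have h3 : Real.sqrt n ≤ 2 * Real.sqrt N := by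
    rw [Real.sqrt_le_left (by positivity), mul_pow, Real.sq_sqrt hN0.le]
    linarith
  have h4 : Real.sqrt N ≤ (1 / l) * (N / l ^ 14) := by
    have : (1 / l) * ((N : ℝ) / l ^ 14) = N / l ^ 15 := by field_simp
    rw [this, le_div_iff₀ (by positivity)]
    exact hsq
  have h5 : C₂ * Real.sqrt n ≤ (2 * |C₂| / l) * (N / l ^ 14) := by
    calc C₂ * Real.sqrt n ≤ |C₂| * Real.sqrt n := mul_le_mul_of_nonneg_right (le_abs_self _) (Real.sqrt_nonneg _)
      _ ≤ |C₂| * (2 * ((1 / l) * (N / l ^ 14))) := by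
          apply mul_le_mul_of_nonneg_left _ (abs_nonneg _)
          linarith
      _ = (2 * |C₂| / l) * (N / l ^ 14) := by ring
  have hX : 0 ≤ (N : ℝ) / l ^ 14 := by positivity
  have h6 : (2 * C / l) + (2 * |C₂| / l) ≤ δ / 2 := by
    rw [← add_div, div_le_iff₀ hl0]
    linarith
  have h7 := mul_le_mul_of_nonneg_right h6 hX
  have h8 := hC₂ (n : ℝ)
  have h9 := Chebyshev.theta_le_psi (n : ℝ)
  have h10 := abs_le.1 h1
  have hc0 : 0 ≤ (2 * |C₂| / l) * ((N : ℝ) / l ^ 14) := by positivity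
  have hc1 : 0 ≤ δ * ((N : ℝ) / l ^ 14) := by positivity
  rw [abs_le]
  constructor <;> nlinarith [h10.1, h10.2]

theorem expSmall : ExpSmall := by
  intro ε hε
  obtain ⟨η, hη0, hη1, C, hC, hI⟩ := exp_Ioc 1 le_rfl
  obtain ⟨N₂, hN₂⟩ := ev_log' η hη0 1 (8 * C / ε)
  obtain ⟨N₃, hN₃⟩ := ev_log' 1 one_pos 15 1
  obtain ⟨N₄, hN₄⟩ := psi_err (ε / 40) (by positivity)
  refine ⟨max 1 (16 * C / ε), le_max_left _ _, fun d => ?_⟩
  obtain ⟨N₁, hN₁⟩ := prime_exp_small d ε hε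
  refine ⟨N₁ + N₂ + N₃ + N₄ + 2, ?_⟩
  intro N hN N' hNN hN' ξ hξ hξd
  obtain ⟨-, hB, hl1, -, hpow⟩ := hN₂ N (by omega)
  obtain ⟨-, -, -, -, hpow15⟩ := hN₃ N (by omega)
  have hN2 : (2 : ℝ) ≤ N := by exact_mod_cast (by omega : 2 ≤ N)
  have hN0 : (0 : ℝ) < N := by linarith
  rcases le_or_gt ((N : ℝ) * (Real.log N) ^ 14) ξ with hbig | hsmall
  · exact hN₁ N (by omega) N' hNN hN' ξ hbig hξd
  obtain ⟨l, hl⟩ : ∃ l : ℝ, l = Real.log N := ⟨_, rfl⟩
  rw [← hl] at hB hl1 hpow hpow15 hsmall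
  have hl0 : 0 < l := by linarith
  have hξ1 : (N : ℝ) ≤ ξ := by
    have := mul_le_mul_of_nonneg_right (le_max_left 1 (16 * C / ε)) hN0.le
    linarith
  have hξ2 : 16 * C / ε * N ≤ ξ := by
    have := mul_le_mul_of_nonneg_right (le_max_right 1 (16 * C / ε)) hN0.le
    linarith
  have hξ0 : 0 < ξ := by linarith
  have hC0 : 0 < C := by linarith
  -- the smooth sum
  have s1 : ‖∑ n ∈ Ioc N N', e (ξ / (n : ℝ))‖ ≤ ε / 2 * N := by
    have h1 := hI N N' ξ (by omega) hξ0 (by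
      rw [Real.rpow_one] at hpow15
      have h2 : l ^ 14 ≤ N := by
        calc l ^ 14 ≤ l ^ 15 := pow_le_pow_right₀ hl1 (by norm_num)
          _ ≤ N := hpow15
      calc ξ ≤ N * l ^ 14 := hsmall.le
        _ ≤ N * N := mul_le_mul_of_nonneg_left h2 hN0.le
        _ ≤ ((N + 1 : ℕ) : ℝ) ^ (1 + 1) := by push_cast; nlinarith)
    refine h1.trans ?_
    have hN1r : ((N + 1 : ℕ) : ℝ) ≤ 2 * N := by push_cast; linarith
    have h2 : ((N + 1 : ℕ) : ℝ) ^ 2 / ξ ≤ ε / (4 * C) * N := by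
      rw [div_le_iff₀ hξ0]
      calc ((N + 1 : ℕ) : ℝ) ^ 2 ≤ (2 * N) ^ 2 := pow_le_pow_left₀ (Nat.cast_nonneg _) hN1r 2
        _ = ε / (4 * C) * N * (16 * C / ε * N) := by field_simp; ring
        _ ≤ ε / (4 * C) * N * ξ := mul_le_mul_of_nonneg_left hξ2 (by positivity)
    have h3 : ((N + 1 : ℕ) : ℝ) ^ (1 - η) ≤ ε / (4 * C) * N := by
      have h4 : ((N + 1 : ℕ) : ℝ) ^ (1 - η) ≤ (2 * N) ^ (1 - η) :=
        Real.rpow_le_rpow (Nat.cast_nonneg _) hN1r (by linarith)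
      have h5 : (2 * (N : ℝ)) ^ (1 - η) ≤ 2 * (N : ℝ) ^ (1 - η) := by
        rw [Real.mul_rpow (by norm_num) hN0.le]
        apply mul_le_mul_of_nonneg_right _ (Real.rpow_nonneg hN0.le _)
        calc (2 : ℝ) ^ (1 - η) ≤ 2 ^ (1 : ℝ) := Real.rpow_le_rpow_of_exponent_le (by norm_num) (by linarith)
          _ = 2 := Real.rpow_one 2
      have h6 : (N : ℝ) ^ (1 - η) * (N : ℝ) ^ η = N := by
        rw [← Real.rpow_add hN0]; simp
      have h7 : 8 * C / ε ≤ (N : ℝ) ^ η := by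
        rw [pow_one] at hpow
        exact hB.trans hpow
      have h8 : 0 ≤ (N : ℝ) ^ (1 - η) := Real.rpow_nonneg hN0.le _
      have h9 : (N : ℝ) ^ (1 - η) * (8 * C / ε) ≤ N := by
        calc (N : ℝ) ^ (1 - η) * (8 * C / ε) ≤ (N : ℝ) ^ (1 - η) * (N : ℝ) ^ η := mul_le_mul_of_nonneg_left h7 h8
          _ = N := h6
      have h10 : 2 * (N : ℝ) ^ (1 - η) = ε / (4 * C) * ((N : ℝ) ^ (1 - η) * (8 * C / ε)) := by
        field_simp
        ring
      calc ((N + 1 : ℕ) : ℝ) ^ (1 - η) ≤ 2 * (N : ℝ) ^ (1 - η) := h4.trans h5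
        _ = ε / (4 * C) * ((N : ℝ) ^ (1 - η) * (8 * C / ε)) := h10
        _ ≤ ε / (4 * C) * N := mul_le_mul_of_nonneg_left h9 (by positivity)
    calc C * (((N + 1 : ℕ) : ℝ) ^ 2 / ξ + ((N + 1 : ℕ) : ℝ) ^ (1 - η)) ≤
        C * (ε / (4 * C) * N + ε / (4 * C) * N) := mul_le_mul_of_nonneg_left (add_le_add h2 h3) hC0.le
      _ = ε / 2 * N := by field_simp; ring
  -- the difference
  have s2 : ‖∑ n ∈ Ioc N N', (((ArithmeticFunction.vonMangoldt n - 1 : ℝ)) : ℂ) * e (ξ / (n : ℝ))‖ ≤ ε / 2 * N := by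
    set E : ℕ → ℝ := fun m => Chebyshev.psi (m : ℝ) - m with hE
    set D : ℝ := ε / 40 * (N / l ^ 14) with hD
    have hD0 : 0 ≤ D := by positivity
    have hEb : ∀ n : ℕ, N ≤ n → n ≤ 2 * N → |E n| ≤ D := by
      intro n h1 h2
      have := hN₄ N (by omega) n h1 h2
      rw [← hl] at this
      exact this
    have h1 : ∑ n ∈ Ioc N N', (((ArithmeticFunction.vonMangoldt n - 1 : ℝ)) : ℂ) * e (ξ / (n : ℝ)) =
        ∑ n ∈ Ioc N N', (((E n - E (n - 1) : ℝ)) : ℂ) * e (ξ / (n : ℝ)) := by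
      apply sum_congr rfl
      intro n hn
      rw [mem_Ioc] at hn
      congr 2
      have h2 := psi_sub (n - 1) n (by omega)
      have h3 : Ioc (n - 1) n = {n} := by
        ext x
        rw [mem_Ioc, mem_singleton]
        omega
      rw [h3, sum_singleton] at h2
      simp only [hE]
      have h4 : ((n - 1 : ℕ) : ℝ) = n - 1 := by
        rw [Nat.cast_sub (by omega)]; simp
      rw [← h2, h4]
      ring
    rw [h1, abel E (fun n => e (ξ / (n : ℝ))) hNN]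
    have h2 : ∀ n ∈ Ioc N N', ‖(E (n - 1) : ℂ) * (e (ξ / (n : ℝ)) - e (ξ / ((n - 1 : ℕ) : ℝ)))‖ ≤ D * (7 * l ^ 14 / N) := by
      intro n hn
      rw [mem_Ioc] at hn
      rw [norm_mul, Complex.norm_real, Real.norm_eq_abs]
      have h3 := hEb (n - 1) (by omega) (by omega)
      have h4 : ((n - 1 : ℕ) : ℝ) = n - 1 := by
        rw [Nat.cast_sub (by omega)]; simp
      have h5 : (N : ℝ) ≤ n - 1 := by
        rw [← h4]; exact_mod_cast (by omega : N ≤ n - 1)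
      have h6 : |ξ / (n : ℝ) - ξ / ((n - 1 : ℕ) : ℝ)| ≤ l ^ 14 / N := by
        rw [h4, div_sub_div _ _ (by linarith) (by linarith)]
        rw [show ξ * ((n : ℝ) - 1) - n * ξ = -ξ by ring, abs_div, abs_neg, abs_of_pos hξ0,
          abs_of_pos (by nlinarith : (0 : ℝ) < n * (n - 1)), div_le_div_iff₀ (by nlinarith) hN0]
        calc ξ * N ≤ (N * l ^ 14) * N := mul_le_mul_of_nonneg_right hsmall.le hN0.le
          _ = l ^ 14 * (N * N) := by ring
          _ ≤ l ^ 14 * (n * (n - 1)) := by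
              apply mul_le_mul_of_nonneg_left _ (by positivity)
              exact mul_le_mul (by linarith) h5 hN0.le (by linarith)
      have h7 := e_sub_le (ξ / (n : ℝ)) (ξ / ((n - 1 : ℕ) : ℝ))
      have h8 : 2 * Real.pi ≤ 7 := by
        have := Real.pi_lt_d2
        linarith
      have h9 : ‖e (ξ / (n : ℝ)) - e (ξ / ((n - 1 : ℕ) : ℝ))‖ ≤ 7 * l ^ 14 / N := by
        refine h7.trans ?_
        calc 2 * Real.pi * |ξ / (n : ℝ) - ξ / ((n - 1 : ℕ) : ℝ)| ≤ 7 * (l ^ 14 / N) :=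
              mul_le_mul h8 h6 (abs_nonneg _) (by norm_num)
          _ = 7 * l ^ 14 / N := by ring
      exact mul_le_mul h3 h9 (norm_nonneg _) hD0
    have h3 : ‖∑ n ∈ Ioc N N', (E (n - 1) : ℂ) * (e (ξ / (n : ℝ)) - e (ξ / ((n - 1 : ℕ) : ℝ)))‖ ≤ 7 * ε / 40 * N := by
      refine (norm_sum_le _ _).trans ((sum_le_sum h2).trans ?_)
      rw [sum_const, Nat.card_Ioc, nsmul_eq_mul]
      have h4 : ((N' - N : ℕ) : ℝ) ≤ N := by exact_mod_cast (by omega : N' - N ≤ N)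
      calc ((N' - N : ℕ) : ℝ) * (D * (7 * l ^ 14 / N)) ≤ N * (D * (7 * l ^ 14 / N)) :=
            mul_le_mul_of_nonneg_right h4 (by positivity)
        _ = 7 * ε / 40 * N := by rw [hD]; field_simp
    have hDN : D ≤ ε / 40 * N := by
      rw [hD]
      apply mul_le_mul_of_nonneg_left _ (by positivity)
      exact div_le_self hN0.le (one_le_pow₀ hl1)
    have h4 : ‖(E N' : ℂ) * e (ξ / (N' : ℝ))‖ ≤ D := by
      rw [norm_mul, norm_e, mul_one, Complex.norm_real, Real.norm_eq_abs]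
      exact hEb N' hNN hN'
    have h5 : ‖(E N : ℂ) * e (ξ / (N : ℝ))‖ ≤ D := by
      rw [norm_mul, norm_e, mul_one, Complex.norm_real, Real.norm_eq_abs]
      exact hEb N le_rfl (by omega)
    have h6 := norm_sub_le ((E N' : ℂ) * e (ξ / (N' : ℝ)) - (E N : ℂ) * e (ξ / (N : ℝ)))
      (∑ n ∈ Ioc N N', (E (n - 1) : ℂ) * (e (ξ / (n : ℝ)) - e (ξ / ((n - 1 : ℕ) : ℝ))))
    have h7 := norm_sub_le ((E N' : ℂ) * e (ξ / (N' : ℝ))) ((E N : ℂ) * e (ξ / (N : ℝ)))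
    have h8 : 0 ≤ ε * N := by positivity
    linarith
  have h3 : ∑ n ∈ Ioc N N', ((ArithmeticFunction.vonMangoldt n : ℝ) : ℂ) * e (ξ / (n : ℝ)) =
      ∑ n ∈ Ioc N N', (((ArithmeticFunction.vonMangoldt n - 1 : ℝ)) : ℂ) * e (ξ / (n : ℝ)) + ∑ n ∈ Ioc N N', e (ξ / (n : ℝ)) := by
    rw [← sum_add_distrib]
    apply sum_congr rfl
    intro n _
    push_cast
    ring
  rw [h3]
  have h4 := norm_add_le (∑ n ∈ Ioc N N', (((ArithmeticFunction.vonMangoldt n - 1 : ℝ)) : ℂ) * e (ξ / (n : ℝ)))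
    (∑ n ∈ Ioc N N', e (ξ / (n : ℝ)))
  linarith

end Pool.Agent.Y848.NK
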