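import Pool.Agent.Y848.NK.Asym
import Pool.Agent.Y848.NK.Exp

set_option autoImplicit false

/-! A positive proportion of the primes for all `n ≥ 2k` -/

namespace Pool.Agent.Y848.NK

open Finset
open Pool.Agent.H895R3.NK (theta_sub psi_sub)

lemma theta_pnt (ε : ℝ) (hε : 0 < ε) : ∃ N₀ : ℕ, ∀ N : ℕ, N₀ ≤ N → |Chebyshev.theta (N : ℝ) - N| ≤ ε * N := by
  obtain ⟨N₀, h⟩ := psi_pnt (ε / 2) (by positivity)
  refine ⟨N₀, fun N hN => ?_⟩
  obtain ⟨h1, h2⟩ := h N hN
  have h3 := Chebyshev.theta_le_psi (N : ℝ)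
  have h4 := abs_le.1 h1
  have h5 : 0 ≤ ε * N := by positivity
  rw [abs_le]
  constructor <;> linarith [h4.1, h4.2]

lemma hit_of {n k p t : ℕ} (h3 : n ≤ p * t + k) (h4 : p * t < n) : p ∣ ∏ i ∈ Icc 1 k, (n - i) := by
  have : p ∣ n - (n - p * t) := by
    rw [Nat.sub_sub_self h4.le]; exact dvd_mul_right p t
  exact this.trans (dvd_prod_of_mem (fun i => n - i) (by rw [mem_Icc]; omega))

lemma TH_ge_int {n h N N' A B : ℕ} (hA : N ≤ A) (hB : B ≤ N') (hAB : A ≤ B)
    (hh : ∀ p : ℕ, p.Prime → A < p → p ≤ B → p ∣ ∏ i ∈ Icc 1 h, (n - i)) :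
    Chebyshev.theta (B : ℝ) - Chebyshev.theta (A : ℝ) ≤ TH n h N N' := by
  rw [theta_sub A B hAB]
  unfold TH
  apply sum_le_sum_of_subset_of_nonneg
  · intro p hp
    rw [mem_filter, mem_Ioc] at hp ⊢
    exact ⟨⟨by omega, by omega⟩, hp.2, hh p hp.2 hp.1.1 hp.1.2⟩
  · intro p _ _
    exact Real.log_natCast_nonneg p

theorem compact (T : ℕ) (hT : 2 ≤ T) : ∃ k₀ : ℕ, ∀ k : ℕ, k₀ ≤ k → ∀ n : ℕ, 2 * k ≤ n → n ≤ T * k →
    (k : ℝ) / (64 * T) ≤ TH n k k (2 * k) := by
  have hT0 : (0 : ℝ) < T := by exact_mod_cast (by omega : 0 < T)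
  have hT2 : (2 : ℝ) ≤ T := by exact_mod_cast hT
  obtain ⟨N₁, hN₁⟩ := theta_pnt (1 / (256 * T)) (by positivity)
  refine ⟨N₁ + 32 * T, fun k hk n hn2 hnT => ?_⟩
  have hkT : 32 * T ≤ k := by omega
  have hk0 : (0 : ℝ) < k := by exact_mod_cast (by omega : 0 < k)
  have hkTr : (32 * T : ℝ) ≤ k := by exact_mod_cast hkT
  have hkT1 : (1 : ℝ) ≤ k / (32 * T) := by
    rw [le_div_iff₀ (by positivity)]; linarith
  -- a long interval suffices
  have key : ∀ A B : ℕ, k ≤ A → B ≤ 2 * k → A ≤ B → (k : ℝ) / (32 * T) ≤ (B : ℝ) - A →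
      (∀ p : ℕ, p.Prime → A < p → p ≤ B → p ∣ ∏ i ∈ Icc 1 k, (n - i)) →
      (k : ℝ) / (64 * T) ≤ TH n k k (2 * k) := by
    intro A B hA hB hAB hlen hh
    have h1 := TH_ge_int (N := k) (N' := 2 * k) hA hB hAB hh
    have h2 := abs_le.1 (hN₁ A (by omega))
    have h3 := abs_le.1 (hN₁ B (by omega))
    have hAr : (A : ℝ) ≤ 2 * k := by exact_mod_cast (by omega : A ≤ 2 * k)
    have hBr : (B : ℝ) ≤ 2 * k := by exact_mod_cast hB
    have h4 : 1 / (256 * (T : ℝ)) * A ≤ k / (128 * T) := by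
      calc 1 / (256 * (T : ℝ)) * A ≤ 1 / (256 * T) * (2 * k) := mul_le_mul_of_nonneg_left hAr (by positivity)
        _ = k / (128 * T) := by field_simp; norm_num
    have h5 : 1 / (256 * (T : ℝ)) * B ≤ k / (128 * T) := by
      calc 1 / (256 * (T : ℝ)) * B ≤ 1 / (256 * T) * (2 * k) := mul_le_mul_of_nonneg_left hBr (by positivity)
        _ = k / (128 * T) := by field_simp; norm_num
    have h6 : (k : ℝ) / (32 * T) = k / (64 * T) + 2 * (k / (128 * T)) := by field_simp; norm_num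
    linarith [h2.1, h2.2, h3.1, h3.2]
  rcases Nat.lt_or_ge (2 * n) (5 * k) with hcase | hcase
  · apply key (3 * k / 2) (2 * k - 1) (by omega) (by omega) (by omega)
    · have h1 : ((3 * k / 2 : ℕ) : ℝ) ≤ ((3 * k : ℕ) : ℝ) / 2 := Nat.cast_div_le
      have h2 : ((2 * k - 1 : ℕ) : ℝ) = 2 * k - 1 := by
        rw [Nat.cast_sub (by omega)]; push_cast; ring
      rw [h2]
      push_cast at h1
      have h3 : (k : ℝ) / (32 * T) ≤ k / 64 := by
        apply div_le_div_of_nonneg_left hk0.le (by norm_num)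
        linarith
      linarith
    · intro p hp hp1 hp2
      exact hit_of (t := 1) (by omega) (by omega)
  · set t := (n + 2 * k - 1) / (2 * k) with ht
    have ht1 : n ≤ 2 * k * t := by
      have h1 := Nat.div_add_mod (n + 2 * k - 1) (2 * k)
      have h2 := Nat.mod_lt (n + 2 * k - 1) (show 0 < 2 * k by omega)
      rw [← ht] at h1
      omega
    have ht2 : 2 * k * t ≤ n + 2 * k - 1 := by
      rw [ht]; exact Nat.mul_div_le _ _
    have ht3 : 2 ≤ t := by
      by_contra h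
      have h1 : t ≤ 1 := by omega
      have : 2 * k * t ≤ 2 * k * 1 := Nat.mul_le_mul_left _ h1
      omega
    have ht0 : 0 < t := by omega
    have htT : t ≤ T := by
      by_contra h
      have h1 : T + 1 ≤ t := by omega
      have h2 : 2 * k * (T + 1) ≤ 2 * k * t := Nat.mul_le_mul_left _ h1
      have h3 : 2 * k * (T + 1) = 2 * (T * k) + 2 * k := by ring
      have h4 : 2 * k ≤ T * k := Nat.mul_le_mul_right _ hT
      omega
    have h54 : 5 * (k * t) ≤ 4 * n := by
      rcases Nat.lt_or_ge t 3 with h | h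
      · have : t = 2 := by omega
        rw [this]; omega
      · have h3 : k * 3 ≤ k * t := Nat.mul_le_mul_left _ h
        have h4 : 2 * k * t = 2 * (k * t) := by ring
        omega
    set B := (n - 1) / t with hB
    set w := k / (8 * t) with hw
    have hBt : B * t ≤ n - 1 := Nat.div_mul_le_self _ _
    have hBt2 : n ≤ (B + 1) * t := by
      have h1 := Nat.div_add_mod (n - 1) t
      have h2 := Nat.mod_lt (n - 1) ht0
      rw [← hB] at h1
      have h3 : (B + 1) * t = t * B + t := by ring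
      omega
    have hB2k : B < 2 * k := by
      by_contra h
      have h1 : 2 * k ≤ B := by omega
      have h2 : 2 * k * t ≤ B * t := Nat.mul_le_mul_right _ h1
      omega
    have hwt : 8 * (w * t) ≤ k := by
      have h1 : k / (8 * t) * (8 * t) ≤ k := Nat.div_mul_le_self _ _
      rw [← hw] at h1
      have h2 : w * (8 * t) = 8 * (w * t) := by ring
      omega
    have hw16 : 16 * w ≤ k := by
      have h1 : w * 2 ≤ w * t := Nat.mul_le_mul_left _ ht3
      omega
    have hB5 : 5 * k ≤ 4 * (B + 1) := by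
      by_contra h
      have h1 : 4 * (B + 1) + 1 ≤ 5 * k := by omega
      have h2 : (4 * (B + 1) + 1) * t ≤ 5 * k * t := Nat.mul_le_mul_right _ h1
      have h3 : (4 * (B + 1) + 1) * t = 4 * ((B + 1) * t) + t := by ring
      have h4 : 5 * k * t = 5 * (k * t) := by ring
      omega
    have hAk : k ≤ B - w := by omega
    apply key (B - w) B hAk (by omega) (by omega)
    · have h1 : ((B - w : ℕ) : ℝ) = B - w := Nat.cast_sub (by omega)
      rw [h1]
      have htr : (t : ℝ) ≤ T := by exact_mod_cast htT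
      have htpos : (0 : ℝ) < t := by exact_mod_cast ht0
      have h6 : (k : ℝ) / (8 * t) < w + 1 := by
        rw [div_lt_iff₀ (by positivity)]
        have h7 : k < (w + 1) * (8 * t) := by
          have h8 := Nat.div_add_mod k (8 * t)
          have h9 := Nat.mod_lt k (show 0 < 8 * t by omega)
          rw [← hw] at h8
          have h10 : (w + 1) * (8 * t) = 8 * t * w + 8 * t := by ring
          omega
        exact_mod_cast h7
      have h7 : (k : ℝ) / (8 * T) ≤ k / (8 * t) := by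
        apply div_le_div_of_nonneg_left hk0.le (by positivity)
        linarith
      have h8 : (k : ℝ) / (8 * T) = 4 * (k / (32 * T)) := by field_simp; norm_num
      linarith
    · intro p hp hp1 hp2
      apply hit_of (t := t)
      · have h1 : (B - w + 1) * t ≤ p * t := Nat.mul_le_mul_right _ (by omega)
        have h2 : (B - w + 1) * t + w * t = (B + 1) * t := by
          rw [← add_mul]; congr 1; omega
        omega
      · have h1 : p * t ≤ B * t := Nat.mul_le_mul_right _ hp2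
        omega

theorem lower_all : ∃ c : ℝ, 0 < c ∧ ∀ d : ℕ, ∃ k₀ : ℕ, ∀ k : ℕ, k₀ ≤ k → ∀ n : ℕ, 2 * k ≤ n →
    (n : ℝ) ≤ (k : ℝ) ^ d → c * k ≤ TH n k k (2 * k) := by
  obtain ⟨τ, hτ, H⟩ := asym expSmall (β := 1) (lam := 1) one_pos le_rfl one_pos le_rfl (ε := 1 / 10) (by norm_num)
  obtain ⟨T, hT⟩ : ∃ T : ℕ, T = ⌈τ⌉₊ + 2 := ⟨_, rfl⟩
  have hT0 : (2 : ℝ) ≤ T := by rw [hT]; push_cast; linarith [Nat.cast_nonneg (α := ℝ) ⌈τ⌉₊]
  have hTτ : τ ≤ T := by
    rw [hT]; push_cast
    linarith [Nat.le_ceil τ]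
  obtain ⟨k₁, h1⟩ := compact T (by omega)
  refine ⟨1 / (64 * T), by positivity, fun d => ?_⟩
  obtain ⟨k₂, h2⟩ := H d
  refine ⟨k₁ + k₂ + 1, fun k hk n hn hn' => ?_⟩
  have hk0 : (0 : ℝ) < k := by exact_mod_cast (by omega : 0 < k)
  rcases Nat.lt_or_ge (T * k) n with hc | hc
  · have hcr : (T : ℝ) * k < n := by exact_mod_cast hc
    have h3 := h2 k (by omega) n (by nlinarith) hn'
    have e1 : ⌊(1 : ℝ) * k⌋₊ = k := by rw [one_mul, Nat.floor_natCast]
    have e2 : ⌊((1 : ℝ) + 1) * k⌋₊ = 2 * k := by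
      rw [show ((1 : ℝ) + 1) * k = ((2 * k : ℕ) : ℝ) by push_cast; ring, Nat.floor_natCast]
    rw [e1, e2] at h3
    have h4 := (abs_le.1 h3).1
    have h5 := Real.log_two_gt_d9
    have h6 : 1 / (64 * (T : ℝ)) ≤ 1 / 2 := by
      apply div_le_div_of_nonneg_left zero_le_one (by norm_num)
      linarith
    have h7 : 1 / (64 * (T : ℝ)) * k ≤ 1 / 2 * k := mul_le_mul_of_nonneg_right h6 hk0.le
    have h8 : (1 : ℝ) + 1 = 2 := by norm_num
    rw [h8] at h4
    nlinarith
  · have h3 := h1 k (by omega) n hn hc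
    have e : 1 / (64 * (T : ℝ)) * k = k / (64 * T) := by ring
    rw [e]
    exact h3

end Pool.Agent.Y848.NK
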