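import Pool.Agent.Y848.NK.Weyl

set_option autoImplicit false

/-! Trapezoidal functions on the circle and one block of primes -/

namespace Pool.Agent.Y848.NK

open Finset MeasureTheory
open Pool.Agent.H469R2.NK (e norm_e e_add conj_e e_zero)

local instance : Fact (0 < (1 : ℝ)) := ⟨one_pos⟩

/-- the value of the trapezoid -/
noncomputable def trv (m r δ : ℝ) (t : AddCircle (1 : ℝ)) : ℝ := max 0 (min 1 ((r + δ - ‖t - (m : AddCircle (1 : ℝ))‖) / δ))

lemma trv_cont (m r δ : ℝ) : Continuous (trv m r δ) := by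
  unfold trv
  fun_prop

/-- the trapezoid as a complex valued function -/
noncomputable def trg (m r δ : ℝ) : C(AddCircle (1 : ℝ), ℂ) :=
  ⟨fun t => (trv m r δ t : ℂ), Complex.continuous_ofReal.comp (trv_cont m r δ)⟩

lemma trv_nonneg (m r δ : ℝ) (t : AddCircle (1 : ℝ)) : 0 ≤ trv m r δ t := le_max_left _ _

lemma trv_le_one (m r δ : ℝ) (t : AddCircle (1 : ℝ)) : trv m r δ t ≤ 1 := max_le zero_le_one (min_le_left _ _)

lemma trv_eq_one {m r δ : ℝ} (hδ : 0 < δ) {t : AddCircle (1 : ℝ)} (h : ‖t - (m : AddCircle (1 : ℝ))‖ ≤ r) :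
    trv m r δ t = 1 := by
  unfold trv
  have : 1 ≤ (r + δ - ‖t - (m : AddCircle (1 : ℝ))‖) / δ := by
    rw [le_div_iff₀ hδ]; linarith
  rw [min_eq_left this]
  exact max_eq_right zero_le_one

lemma trv_pos {m r δ : ℝ} (hδ : 0 < δ) {t : AddCircle (1 : ℝ)} (h : 0 < trv m r δ t) :
    ‖t - (m : AddCircle (1 : ℝ))‖ < r + δ := by
  by_contra hc
  push Not at hc
  have h1 : (r + δ - ‖t - (m : AddCircle (1 : ℝ))‖) / δ ≤ 0 := div_nonpos_of_nonpos_of_nonneg (by linarith) hδ.le
  have : trv m r δ t = 0 := by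
    unfold trv
    exact max_eq_left ((min_le_right _ _).trans h1)
  linarith

lemma haar_eq_volume : (AddCircle.haarAddCircle : Measure (AddCircle (1 : ℝ))) = volume := by
  rw [AddCircle.volume_eq_smul_haarAddCircle]
  simp

lemma MV_trg (m r δ : ℝ) : MV (trg m r δ) = ((∫ t, trv m r δ t ∂(volume : Measure (AddCircle (1 : ℝ))) : ℝ) : ℂ) := by
  unfold MV
  rw [haar_eq_volume]
  exact integral_complex_ofReal

lemma trv_integrable (m r δ : ℝ) : Integrable (trv m r δ) (volume : Measure (AddCircle (1 : ℝ))) :=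
  (trv_cont m r δ).integrable_of_hasCompactSupport (HasCompactSupport.of_compactSpace _)

lemma ball_real (m r : ℝ) : (volume : Measure (AddCircle (1 : ℝ))).real (Metric.closedBall (m : AddCircle (1 : ℝ)) r) =
    max (min 1 (2 * r)) 0 := by
  rw [Measure.real, AddCircle.volume_closedBall, ENNReal.toReal_ofReal']

lemma trv_int_le {m r δ : ℝ} (hδ : 0 < δ) (hr : 0 ≤ r) :
    ∫ t, trv m r δ t ∂(volume : Measure (AddCircle (1 : ℝ))) ≤ 2 * r + 2 * δ := by
  have h1 : ∫ t, trv m r δ t ∂(volume : Measure (AddCircle (1 : ℝ))) ≤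
      ∫ t, (Metric.closedBall (m : AddCircle (1 : ℝ)) (r + δ)).indicator (fun _ => (1 : ℝ)) t ∂(volume : Measure (AddCircle (1 : ℝ))) := by
    apply integral_mono (trv_integrable m r δ)
    · exact (integrable_const (1 : ℝ)).indicator Metric.isClosed_closedBall.measurableSet
    · intro t
      by_cases ht : t ∈ Metric.closedBall (m : AddCircle (1 : ℝ)) (r + δ)
      · rw [Set.indicator_of_mem ht]
        exact trv_le_one m r δ t
      · rw [Set.indicator_of_notMem ht]
        by_contra hc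
        push Not at hc
        apply ht
        rw [Metric.mem_closedBall, dist_eq_norm]
        exact (trv_pos hδ hc).le
  refine h1.trans ?_
  rw [integral_indicator_const _ Metric.isClosed_closedBall.measurableSet, ball_real, smul_eq_mul, mul_one]
  refine max_le ((min_le_right _ _).trans (by linarith)) (by linarith)

lemma trv_int_ge {m r δ : ℝ} (hδ : 0 < δ) (hr : 2 * r ≤ 1) :
    2 * r ≤ ∫ t, trv m r δ t ∂(volume : Measure (AddCircle (1 : ℝ))) := by
  have h1 : ∫ t, (Metric.closedBall (m : AddCircle (1 : ℝ)) r).indicator (fun _ => (1 : ℝ)) t ∂(volume : Measure (AddCircle (1 : ℝ))) ≤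
      ∫ t, trv m r δ t ∂(volume : Measure (AddCircle (1 : ℝ))) := by
    apply integral_mono _ (trv_integrable m r δ)
    · intro t
      by_cases ht : t ∈ Metric.closedBall (m : AddCircle (1 : ℝ)) r
      · rw [Set.indicator_of_mem ht]
        rw [Metric.mem_closedBall, dist_eq_norm] at ht
        exact (trv_eq_one hδ ht).ge
      · rw [Set.indicator_of_notMem ht]
        exact trv_nonneg m r δ t
    · exact (integrable_const (1 : ℝ)).indicator Metric.isClosed_closedBall.measurableSet
  refine le_trans ?_ h1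
  rw [integral_indicator_const _ Metric.isClosed_closedBall.measurableSet, ball_real, smul_eq_mul, mul_one]
  exact le_trans (le_min hr le_rfl) (le_max_left _ _)

lemma norm_coe_le (x : ℝ) : ‖(x : AddCircle (1 : ℝ))‖ ≤ |x| := by
  rw [UnitAddCircle.norm_eq]
  have := round_le x 0
  simpa using this

/-- the upper function -/
lemma upper_pt {c δ : ℝ} (hδ : 0 < δ) {y : ℝ} (h : Int.fract y ≤ c) : trv (c / 2) (c / 2) δ (y : AddCircle (1 : ℝ)) = 1 := by
  apply trv_eq_one hδ
  have e1 : ((y : ℝ) : AddCircle (1 : ℝ)) = ((Int.fract y : ℝ) : AddCircle (1 : ℝ)) := by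
    have h2 : y = Int.fract y + ((⌊y⌋ : ℤ) : ℝ) := (Int.fract_add_floor y).symm
    conv_lhs => rw [h2]
    rw [AddCircle.coe_add]
    have h3 : ((((⌊y⌋ : ℤ) : ℝ)) : AddCircle (1 : ℝ)) = 0 := by
      rw [AddCircle.coe_eq_zero_iff]
      exact ⟨⌊y⌋, by simp⟩
    rw [h3, add_zero]
  rw [e1, ← AddCircle.coe_sub]
  refine (norm_coe_le _).trans ?_
  rw [abs_le]
  have := Int.fract_nonneg y
  constructor <;> linarith

/-- the lower function -/
lemma lower_pt {c δ : ℝ} (hδ : 0 < δ) {y : ℝ} (hc : c ≤ 1) (h : 0 < trv (c / 2) (c / 2 - 2 * δ) δ (y : AddCircle (1 : ℝ))) :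
    0 < Int.fract y ∧ Int.fract y < c := by
  have h1 := trv_pos hδ h
  rw [← AddCircle.coe_sub, UnitAddCircle.norm_eq, abs_lt] at h1
  set k := round (y - c / 2) with hk
  have h2 : Int.fract y = y - k := by
    rw [Int.fract_eq_iff]
    refine ⟨by linarith [h1.1], by linarith [h1.2], ⟨k, by ring⟩⟩
  rw [h2]
  constructor <;> linarith [h1.1, h1.2]

end Pool.Agent.Y848.NK
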