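import Pool.Agent.H895R3.NK.E7

set_option autoImplicit false

/-! Uniform equidistribution of `ξ / p` modulo one (Weyl's criterion) -/

namespace Pool.Agent.Y848.NK

open Finset MeasureTheory
open Pool.Agent.H469R2.NK (e norm_e e_add conj_e e_zero)

local instance : Fact (0 < (1 : ℝ)) := ⟨one_pos⟩

/-- exponential sums over primes are small in the range `τ N ≤ ξ ≤ N ^ d` -/
def ExpSmall : Prop := ∀ ε : ℝ, 0 < ε → ∃ τ : ℝ, 1 ≤ τ ∧ ∀ d : ℕ, ∃ N₀ : ℕ, ∀ N : ℕ, N₀ ≤ N → ∀ N' : ℕ, N ≤ N' →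
    N' ≤ 2 * N → ∀ ξ : ℝ, τ * N ≤ ξ → ξ ≤ (N : ℝ) ^ d →
    ‖∑ n ∈ Ioc N N', ((ArithmeticFunction.vonMangoldt n : ℝ) : ℂ) * e (ξ / (n : ℝ))‖ ≤ ε * N

/-- weighted sum of the values of `g` -/
noncomputable def WS (g : C(AddCircle (1 : ℝ), ℂ)) (N N' : ℕ) (ξ : ℝ) : ℂ :=
  ∑ n ∈ Ioc N N', ((ArithmeticFunction.vonMangoldt n : ℝ) : ℂ) * g ((ξ / (n : ℝ) : ℝ) : AddCircle (1 : ℝ))

/-- the mean value -/
noncomputable def MV (g : C(AddCircle (1 : ℝ), ℂ)) : ℂ := ∫ t, g t ∂(AddCircle.haarAddCircle : Measure (AddCircle (1 : ℝ)))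

/-- equidistribution tested against `g` -/
def QQ (g : C(AddCircle (1 : ℝ), ℂ)) : Prop := ∀ ε : ℝ, 0 < ε → ∃ τ : ℝ, 1 ≤ τ ∧ ∀ d : ℕ, ∃ N₀ : ℕ, ∀ N : ℕ, N₀ ≤ N →
    ∀ N' : ℕ, N ≤ N' → N' ≤ 2 * N → ∀ ξ : ℝ, τ * N ≤ ξ → ξ ≤ (N : ℝ) ^ d →
    ‖WS g N N' ξ - MV g * ((∑ n ∈ Ioc N N', ArithmeticFunction.vonMangoldt n : ℝ) : ℂ)‖ ≤ ε * N

lemma sum_vM_le (N N' : ℕ) (hN : N ≤ N') (hN' : N' ≤ 2 * N) : ∑ n ∈ Ioc N N', ArithmeticFunction.vonMangoldt n ≤ 12 * (N : ℝ) := by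
  rw [← Pool.Agent.H895R3.NK.psi_sub N N' hN]
  have h1 := Chebyshev.psi_le_const_mul_self (x := (N' : ℝ)) (Nat.cast_nonneg _)
  have h2 := Chebyshev.psi_nonneg (N : ℝ)
  have h3 : (N' : ℝ) ≤ 2 * N := by exact_mod_cast hN'
  have h4 : Real.log 4 ≤ 2 := by
    rw [show (4 : ℝ) = 2 ^ (2 : ℕ) by norm_num, Real.log_pow]
    have := Real.log_two_lt_d9
    push_cast
    linarith
  have h5 : (0 : ℝ) ≤ N' := Nat.cast_nonneg _
  nlinarith

lemma sum_vM_nonneg (N N' : ℕ) : 0 ≤ ∑ n ∈ Ioc N N', ArithmeticFunction.vonMangoldt n :=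
  sum_nonneg fun _ _ => ArithmeticFunction.vonMangoldt_nonneg

lemma WS_norm_le (g : C(AddCircle (1 : ℝ), ℂ)) {N N' : ℕ} (hN : N ≤ N') (hN' : N' ≤ 2 * N) (ξ : ℝ) :
    ‖WS g N N' ξ‖ ≤ ‖g‖ * (12 * N) := by
  unfold WS
  refine (norm_sum_le _ _).trans ?_
  have h1 : ∀ n ∈ Ioc N N', ‖((ArithmeticFunction.vonMangoldt n : ℝ) : ℂ) * g ((ξ / (n : ℝ) : ℝ) : AddCircle (1 : ℝ))‖ ≤
      ‖g‖ * ArithmeticFunction.vonMangoldt n := by
    intro n _
    rw [norm_mul, Complex.norm_real, Real.norm_of_nonneg ArithmeticFunction.vonMangoldt_nonneg, mul_comm]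
    exact mul_le_mul_of_nonneg_right (g.norm_coe_le_norm _) ArithmeticFunction.vonMangoldt_nonneg
  refine (sum_le_sum h1).trans ?_
  rw [← mul_sum]
  exact mul_le_mul_of_nonneg_left (sum_vM_le N N' hN hN') (norm_nonneg _)

lemma MV_norm_le (g : C(AddCircle (1 : ℝ), ℂ)) : ‖MV g‖ ≤ ‖g‖ := by
  unfold MV
  refine (norm_integral_le_of_norm_le_const (Filter.Eventually.of_forall fun t => g.norm_coe_le_norm t)).trans ?_
  simp

lemma MV_add (g g' : C(AddCircle (1 : ℝ), ℂ)) : MV (g + g') = MV g + MV g' := by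
  unfold MV
  rw [← integral_add (g.continuous.integrable_of_hasCompactSupport (HasCompactSupport.of_compactSpace _))
    (g'.continuous.integrable_of_hasCompactSupport (HasCompactSupport.of_compactSpace _))]
  rfl

lemma MV_smul (c : ℂ) (g : C(AddCircle (1 : ℝ), ℂ)) : MV (c • g) = c * MV g := by
  unfold MV
  rw [← integral_const_mul]
  rfl

lemma WS_add (g g' : C(AddCircle (1 : ℝ), ℂ)) (N N' : ℕ) (ξ : ℝ) : WS (g + g') N N' ξ = WS g N N' ξ + WS g' N N' ξ := by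
  unfold WS
  rw [← sum_add_distrib]
  apply sum_congr rfl
  intro n _
  rw [ContinuousMap.add_apply]
  ring

lemma WS_smul (c : ℂ) (g : C(AddCircle (1 : ℝ), ℂ)) (N N' : ℕ) (ξ : ℝ) : WS (c • g) N N' ξ = c * WS g N N' ξ := by
  unfold WS
  rw [mul_sum]
  apply sum_congr rfl
  intro n _
  rw [ContinuousMap.smul_apply, smul_eq_mul]
  ring

lemma QQ_add {g g' : C(AddCircle (1 : ℝ), ℂ)} (h : QQ g) (h' : QQ g') : QQ (g + g') := by
  intro ε hε
  obtain ⟨τ, hτ, H1⟩ := h (ε / 2) (by positivity)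
  obtain ⟨τ', hτ', H1'⟩ := h' (ε / 2) (by positivity)
  refine ⟨max τ τ', hτ.trans (le_max_left _ _), fun d => ?_⟩
  obtain ⟨N₀, h1⟩ := H1 d
  obtain ⟨N₀', h1'⟩ := H1' d
  refine ⟨max N₀ N₀', fun N hN N' hNN hN' ξ hξ hξ' => ?_⟩
  have e1 := h1 N ((le_max_left _ _).trans hN) N' hNN hN' ξ ((mul_le_mul_of_nonneg_right (le_max_left _ _) (Nat.cast_nonneg _)).trans hξ) hξ'
  have e2 := h1' N ((le_max_right _ _).trans hN) N' hNN hN' ξ ((mul_le_mul_of_nonneg_right (le_max_right _ _) (Nat.cast_nonneg _)).trans hξ) hξ'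
  rw [WS_add, MV_add]
  have e3 := norm_add_le (WS g N N' ξ - MV g * ((∑ n ∈ Ioc N N', ArithmeticFunction.vonMangoldt n : ℝ) : ℂ))
    (WS g' N N' ξ - MV g' * ((∑ n ∈ Ioc N N', ArithmeticFunction.vonMangoldt n : ℝ) : ℂ))
  have e4 : WS g N N' ξ + WS g' N N' ξ - (MV g + MV g') * ((∑ n ∈ Ioc N N', ArithmeticFunction.vonMangoldt n : ℝ) : ℂ) =
    (WS g N N' ξ - MV g * ((∑ n ∈ Ioc N N', ArithmeticFunction.vonMangoldt n : ℝ) : ℂ)) +
    (WS g' N N' ξ - MV g' * ((∑ n ∈ Ioc N N', ArithmeticFunction.vonMangoldt n : ℝ) : ℂ)) := by ring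
  rw [e4]
  linarith

lemma QQ_smul {g : C(AddCircle (1 : ℝ), ℂ)} (c : ℂ) (h : QQ g) : QQ (c • g) := by
  intro ε hε
  obtain ⟨τ, hτ, H1⟩ := h (ε / (‖c‖ + 1)) (by positivity)
  refine ⟨τ, hτ, fun d => ?_⟩
  obtain ⟨N₀, h1⟩ := H1 d
  refine ⟨N₀, fun N hN N' hNN hN' ξ hξ hξ' => ?_⟩
  have e1 := h1 N hN N' hNN hN' ξ hξ hξ'
  rw [WS_smul, MV_smul, mul_assoc, ← mul_sub, norm_mul]
  have e2 : ‖c‖ * (ε / (‖c‖ + 1) * N) ≤ ε * N := by
    have : ‖c‖ / (‖c‖ + 1) ≤ 1 := by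
      rw [div_le_one (by positivity)]; linarith
    calc ‖c‖ * (ε / (‖c‖ + 1) * N) = ‖c‖ / (‖c‖ + 1) * (ε * N) := by field_simp
      _ ≤ 1 * (ε * N) := by gcongr
      _ = ε * N := one_mul _
  exact (mul_le_mul_of_nonneg_left e1 (norm_nonneg _)).trans e2

lemma fourier_e (h : ℤ) (x : ℝ) : fourier h ((x : ℝ) : AddCircle (1 : ℝ)) = e (h * x) := by
  rw [fourier_coe_apply]
  unfold e
  congr 1
  push_cast
  ring

lemma MV_fourier {h : ℤ} (hh : h ≠ 0) : MV (fourier h) = 0 := by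
  unfold MV
  exact integral_eq_zero_of_add_right_eq_neg (μ := AddCircle.haarAddCircle) (fourier_add_half_inv_index hh one_pos)

lemma QQ_fourier (hE : ExpSmall) (h : ℤ) : QQ (fourier h) := by
  rcases eq_or_ne h 0 with rfl | hh
  · intro ε hε
    refine ⟨1, le_rfl, fun d => ⟨0, fun N _ N' _ _ ξ _ _ => ?_⟩⟩
    have e1 : WS (fourier 0) N N' ξ = ((∑ n ∈ Ioc N N', ArithmeticFunction.vonMangoldt n : ℝ) : ℂ) := by
      unfold WS
      push_cast
      apply sum_congr rfl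
      intro n _
      rw [fourier_zero, mul_one]
    have e2 : MV (fourier (0 : ℤ)) = 1 := by
      unfold MV
      simp
    rw [e1, e2, one_mul, sub_self, norm_zero]
    positivity
  · intro ε hε
    obtain ⟨τ, hτ, H1⟩ := hE ε hε
    refine ⟨τ, hτ, fun d => ?_⟩
    obtain ⟨N₀, h1⟩ := H1 (d + 1)
    refine ⟨max N₀ h.natAbs, fun N hN N' hNN hN' ξ hξ hξ' => ?_⟩
    have hh1 : (1 : ℝ) ≤ |(h : ℝ)| := by
      rw [← Int.cast_abs]
      exact_mod_cast Int.one_le_abs hh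
    have hhN : |(h : ℝ)| ≤ N := by
      have : h.natAbs ≤ N := (le_max_right _ _).trans hN
      rw [← Int.cast_abs, Int.abs_eq_natAbs]
      exact_mod_cast this
    have hξ0 : 0 ≤ ξ := le_trans (by positivity) hξ
    have e1 := h1 N ((le_max_left _ _).trans hN) N' hNN hN' (|(h : ℝ)| * ξ) (by nlinarith) (by
      rw [pow_succ']
      exact mul_le_mul hhN hξ' hξ0 (Nat.cast_nonneg _))
    rw [MV_fourier hh, zero_mul, sub_zero]
    have e2 : ‖WS (fourier h) N N' ξ‖ =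
        ‖∑ n ∈ Ioc N N', ((ArithmeticFunction.vonMangoldt n : ℝ) : ℂ) * e (|(h : ℝ)| * ξ / (n : ℝ))‖ := by
      unfold WS
      rcases abs_choice (h : ℝ) with hz | hz
      · rw [hz]
        congr 1
        apply sum_congr rfl
        intro n _
        rw [fourier_e, mul_div_assoc]
      · rw [hz]
        have : ∑ n ∈ Ioc N N', ((ArithmeticFunction.vonMangoldt n : ℝ) : ℂ) * e (-(h : ℝ) * ξ / (n : ℝ)) =
            (starRingEnd ℂ) (∑ n ∈ Ioc N N', ((ArithmeticFunction.vonMangoldt n : ℝ) : ℂ) *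
              fourier h ((ξ / (n : ℝ) : ℝ) : AddCircle (1 : ℝ))) := by
          rw [map_sum]
          apply sum_congr rfl
          intro n _
          rw [map_mul, Complex.conj_ofReal, fourier_e, conj_e]
          congr 2
          ring
        rw [this, Complex.norm_conj]
    rw [e2]
    exact e1

theorem QQ_all (hE : ExpSmall) (g : C(AddCircle (1 : ℝ), ℂ)) : QQ g := by
  have h1 : ∀ g' ∈ Submodule.span ℂ (Set.range (@fourier (1 : ℝ))), QQ g' := by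
    intro g' hg'
    induction hg' using Submodule.span_induction with
    | mem x hx =>
      obtain ⟨h, rfl⟩ := hx
      exact QQ_fourier hE h
    | zero =>
      have := QQ_smul (0 : ℂ) (QQ_fourier hE 0)
      rwa [zero_smul] at this
    | add x y _ _ hx hy => exact QQ_add hx hy
    | smul c x _ hx => exact QQ_smul c hx
  have h2 : g ∈ closure ((Submodule.span ℂ (Set.range (@fourier (1 : ℝ))) : Submodule ℂ C(AddCircle (1 : ℝ), ℂ)) : Set C(AddCircle (1 : ℝ), ℂ)) := by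
    rw [← Submodule.topologicalClosure_coe, span_fourier_closure_eq_top]
    trivial
  intro ε hε
  obtain ⟨g', hg', hd⟩ := Metric.mem_closure_iff.1 h2 (ε / 48) (by positivity)
  obtain ⟨τ, hτ, H3⟩ := h1 g' hg' (ε / 2) (by positivity)
  refine ⟨τ, hτ, fun d => ?_⟩
  obtain ⟨N₀, h3⟩ := H3 d
  refine ⟨N₀, fun N hN N' hNN hN' ξ hξ hξ' => ?_⟩
  have e1 := h3 N hN N' hNN hN' ξ hξ hξ'
  have e2 : g = (g - g') + g' := by ring
  have hdn : ‖g - g'‖ ≤ ε / 48 := by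
    rw [← dist_eq_norm]; exact hd.le
  set V : ℂ := ((∑ n ∈ Ioc N N', ArithmeticFunction.vonMangoldt n : ℝ) : ℂ) with hV
  have hVn : ‖V‖ ≤ 12 * N := by
    rw [hV, Complex.norm_real, Real.norm_of_nonneg (sum_vM_nonneg N N')]
    exact sum_vM_le N N' hNN hN'
  have e3 : WS g N N' ξ - MV g * V = (WS g' N N' ξ - MV g' * V) + WS (g - g') N N' ξ - MV (g - g') * V := by
    conv_lhs => rw [e2, WS_add, MV_add]
    ring
  have e4 : ‖WS (g - g') N N' ξ‖ ≤ ε / 48 * (12 * N) :=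
    (WS_norm_le (g - g') hNN hN' ξ).trans (mul_le_mul_of_nonneg_right hdn (by positivity))
  have e5 : ‖MV (g - g') * V‖ ≤ ε / 48 * (12 * N) := by
    rw [norm_mul]
    exact mul_le_mul ((MV_norm_le _).trans hdn) hVn (norm_nonneg _) (by positivity)
  rw [e3]
  have e6 := norm_sub_le ((WS g' N N' ξ - MV g' * V) + WS (g - g') N N' ξ) (MV (g - g') * V)
  have e7 := norm_add_le (WS g' N N' ξ - MV g' * V) (WS (g - g') N N' ξ)
  linarith

end Pool.Agent.Y848.NK
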